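import Pool.Agent.Q205.LV.Stm

/-! Project LV, job ROL: counting zeros by Rolle's theorem. -/

set_option autoImplicit false
set_option linter.all false

namespace Pool.Agent.Q208.LV

open Pool.Agent.Q205.LV Finset

theorem rol_point (f a f' a' : ℝ → ℝ) (hf : ∀ x, 0 < x → HasDerivAt f (f' x) x)
    (ha : ∀ x, 0 < x → HasDerivAt a (a' x) x) (x z : ℝ) (hx : 0 < x) (hxz : x < z) (fx : f x = 0)
    (fz : f z = 0) (ax : a x ≠ 0) (az : a z ≠ 0) :
    ∃ w, x < w ∧ w < z ∧ (a w = 0 ∨ f' w * a w - f w * a' w = 0) := by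
  by_cases h : ∃ w, x < w ∧ w < z ∧ a w = 0
  · obtain ⟨w, h1, h2, h3⟩ := h
    exact ⟨w, h1, h2, Or.inl h3⟩
  · have hne : ∀ w ∈ Set.Icc x z, a w ≠ 0 := by
      intro w hw hw0
      rcases eq_or_lt_of_le hw.1 with h1 | h1
      · exact ax (by rw [h1]; exact hw0)
      rcases eq_or_lt_of_le hw.2 with h2 | h2
      · exact az (by rw [← h2]; exact hw0)
      exact h ⟨w, h1, h2, hw0⟩
    have hpos : ∀ w ∈ Set.Icc x z, 0 < w := fun w hw => lt_of_lt_of_le hx hw.1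
    have hcont : ContinuousOn (fun w => f w / a w) (Set.Icc x z) := by
      intro w hw
      exact (((hf w (hpos w hw)).continuousAt).div ((ha w (hpos w hw)).continuousAt)
        (hne w hw)).continuousWithinAt
    obtain ⟨w, hw, hw2⟩ := exists_hasDerivAt_eq_zero (f := fun w => f w / a w)
      (f' := fun w => (f' w * a w - f w * a' w) / a w ^ 2) hxz hcont
      (by show f x / a x = f z / a z; rw [fx, fz, zero_div, zero_div]) (fun w hw => by
        have hw' : w ∈ Set.Icc x z := ⟨hw.1.le, hw.2.le⟩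
        exact (hf w (hpos w hw')).div (ha w (hpos w hw')) (hne w hw'))
    refine ⟨w, hw.1, hw.2, Or.inr ?_⟩
    have h3 : a w ≠ 0 := hne w ⟨hw.1.le, hw.2.le⟩
    have h4 : (f' w * a w - f w * a' w) / a w ^ 2 = 0 := hw2
    rw [div_eq_zero_iff] at h4
    rcases h4 with h4 | h4
    · exact h4
    · exact absurd h4 (pow_ne_zero 2 h3)

theorem rol : ROLStm := by
  classical
  intro f a f' a' N M hf ha hN hM S hS
  have h1 : (S.filter (fun x => a x = 0)).card ≤ N := by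
    refine hN _ fun x hx => ?_
    rw [mem_filter] at hx
    exact ⟨(hS x hx.1).1, hx.2⟩
  obtain ⟨S1, hS1⟩ : ∃ S1 : Finset ℝ, S1 = S.filter (fun x => ¬ a x = 0) := ⟨_, rfl⟩
  have hmem : ∀ x ∈ S1, 0 < x ∧ f x = 0 ∧ a x ≠ 0 := by
    intro x hx
    rw [hS1, mem_filter] at hx
    exact ⟨(hS x hx.1).1, (hS x hx.1).2, hx.2⟩
  have hch : ∀ p : ℝ × ℝ, ∃ w : ℝ, p.1 ∈ S1 → p.2 ∈ S1 → p.1 < p.2 →
      p.1 < w ∧ w < p.2 ∧ (a w = 0 ∨ f' w * a w - f w * a' w = 0) := by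
    intro p
    by_cases h : p.1 ∈ S1 ∧ p.2 ∈ S1 ∧ p.1 < p.2
    · obtain ⟨h2, h3, h4⟩ := h
      obtain ⟨e1, e2, e3⟩ := hmem _ h2
      obtain ⟨e4, e5, e6⟩ := hmem _ h3
      obtain ⟨w, hw⟩ := rol_point f a f' a' hf ha p.1 p.2 e1 h4 e2 e5 e3 e6
      exact ⟨w, fun _ _ _ => hw⟩
    · exact ⟨0, fun h2 h3 h4 => absurd ⟨h2, h3, h4⟩ h⟩
  choose w hw using hch
  obtain ⟨T, hT⟩ : ∃ T : Finset ℝ, T = ((S1 ×ˢ S1).filter (fun p => p.1 < p.2)).image w := ⟨_, rfl⟩
  have hTm : ∀ t ∈ T, 0 < t ∧ (a t = 0 ∨ f' t * a t - f t * a' t = 0) := by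
    intro t ht
    rw [hT, mem_image] at ht
    obtain ⟨p, hp, rfl⟩ := ht
    rw [mem_filter, mem_product] at hp
    obtain ⟨h2, h3, h4⟩ := hw p hp.1.1 hp.1.2 hp.2
    exact ⟨(hmem _ hp.1.1).1.trans h2, h4⟩
  have hTc : T.card ≤ N + M := by
    have h2 : (T.filter (fun x => a x = 0)).card ≤ N := by
      refine hN _ fun x hx => ?_
      rw [mem_filter] at hx
      exact ⟨(hTm x hx.1).1, hx.2⟩
    have h3 : (T.filter (fun x => ¬ a x = 0)).card ≤ M := by
      refine hM _ fun x hx => ?_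
      rw [mem_filter] at hx
      refine ⟨(hTm x hx.1).1, ?_⟩
      rcases (hTm x hx.1).2 with h4 | h4
      · exact absurd h4 hx.2
      · exact h4
    have h4 := card_filter_add_card_filter_not (s := T) (fun x => a x = 0)
    omega
  have h2 : S1.card ≤ T.card + 1 := by
    refine card_le_of_interleaved fun x hx z hz hxz _ => ?_
    obtain ⟨e1, e2, e3⟩ := hw (x, z) hx hz hxz
    refine ⟨w (x, z), ?_, e1, e2⟩
    rw [hT, mem_image]
    exact ⟨(x, z), by rw [mem_filter, mem_product]; exact ⟨⟨hx, hz⟩, hxz⟩, rfl⟩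
  have h3 := card_filter_add_card_filter_not (s := S) (fun x => a x = 0)
  rw [← hS1] at h3
  omega

end Pool.Agent.Q208.LV
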