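import Pool.Agent.Q208.LV.Der
import Pool.Agent.Q208.LV.Rol

/-! Project LV, job ZB: the number of zeros of a polynomial in a chain. -/

set_option autoImplicit false
set_option linter.all false

namespace Pool.Agent.Q208.LV

open Pool.Agent.Q205.LV Finset

theorem nz_mono {f : ℝ → ℝ} {N M : ℕ} (h : NZ f N) (hNM : N ≤ M) : NZ f M :=
  fun S hS => (h S hS).trans hNM

theorem nz_sub {f g : ℝ → ℝ} {N : ℕ} (h : NZ g N) (hfg : ∀ x, 0 < x → f x = 0 → g x = 0) : NZ f N :=
  fun S hS => h S fun x hx => ⟨(hS x hx).1, hfg x (hS x hx).1 (hS x hx).2⟩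

theorem Mb_mono (r : ℕ) {d e : ℕ} (h : d ≤ e) : Mb r d ≤ Mb r e := by
  unfold Mb
  have h1 : 2 ^ d ≤ 2 ^ e := Nat.pow_le_pow_right (by norm_num) h
  exact Nat.add_le_add (Nat.mul_le_mul h1 (by omega)) (Nat.mul_le_mul_right _ h)

theorem Zb_mono (r : ℕ) {d e : ℕ} (h : d ≤ e) : Zb r d ≤ Zb r e := by
  induction r generalizing d e with
  | zero => exact h
  | succ r ih =>
    show (2 * d + 3) * (Zb r (Mb r d) + 1) ≤ (2 * e + 3) * (Zb r (Mb r e) + 1)
    exact Nat.mul_le_mul (by omega) (Nat.succ_le_succ (ih (Mb_mono r h)))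

theorem le_pm (p e w : ℕ) (h : 1 ≤ p) : e ≤ p * (e + w) :=
  le_trans (Nat.le_add_right e w) (Nat.le_mul_of_pos_left _ h)

/-- the bound in the inner induction -/
def Kb (r k e : ℕ) : ℕ := (2 * k + 1) * (Zb r (2 ^ k * (e + 2 * 4 ^ (r + 1))) + 1)

theorem Kb_step (r k e : ℕ) :
    2 * Zb r e + Kb r k (2 * e + 2 * 4 ^ (r + 1)) + 1 ≤ Kb r (k + 1) e := by
  unfold Kb
  have h1 : 2 ^ k * (2 * e + 2 * 4 ^ (r + 1) + 2 * 4 ^ (r + 1)) =
      2 ^ (k + 1) * (e + 2 * 4 ^ (r + 1)) := by
    rw [pow_succ]
    ring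
  rw [h1]
  have h2 : 1 ≤ 2 ^ (k + 1) := Nat.one_le_two_pow
  have h3 : e ≤ 2 ^ (k + 1) * (e + 2 * 4 ^ (r + 1)) := le_pm _ _ _ h2
  have h4 := Zb_mono r h3
  obtain ⟨Z, hZ⟩ : ∃ Z, Z = Zb r (2 ^ (k + 1) * (e + 2 * 4 ^ (r + 1))) := ⟨_, rfl⟩
  rw [← hZ] at h4 ⊢
  nlinarith

theorem Kb_k (r k e : ℕ) : Kb r k e ≤ Kb r (k + 1) e := by
  unfold Kb
  refine Nat.mul_le_mul (by omega) (Nat.succ_le_succ (Zb_mono r (Nat.mul_le_mul_right _ ?_)))
  exact Nat.pow_le_pow_right (by norm_num) (Nat.le_succ k)

theorem Zb_Kb (r k e : ℕ) : Zb r e ≤ Kb r k e := by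
  unfold Kb
  have h2 : 1 ≤ 2 ^ k := Nat.one_le_two_pow
  have h3 : e ≤ 2 ^ k * (e + 2 * 4 ^ (r + 1)) := le_pm _ _ _ h2
  have h4 := Zb_mono r h3
  nlinarith

/-- the Wronskian vanishes identically -/
theorem wronsk (f a f' a' : ℝ → ℝ) (N : ℕ) (hfa : AnalyticOnNhd ℝ f (Set.Ioi 0))
    (hf : ∀ x, 0 < x → HasDerivAt f (f' x) x) (ha : ∀ x, 0 < x → HasDerivAt a (a' x) x) (hN : NZ a N)
    (hw : ∀ x, 0 < x → f' x * a x - f x * a' x = 0) : (∀ x, 0 < x → f x = 0) ∨ NZ f N := by
  by_cases h : ∃ x0, 0 < x0 ∧ f x0 = 0 ∧ a x0 ≠ 0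
  · left
    obtain ⟨x0, hx0, hfx0, hax0⟩ := h
    have hev : ∀ᶠ z in nhds x0, 0 < z ∧ a z ≠ 0 :=
      (eventually_gt_nhds hx0).and
        ((ha x0 hx0).continuousAt.eventually_ne hax0)
    obtain ⟨ε, hε, hball⟩ := Metric.eventually_nhds_iff_ball.1 hev
    have hconst : ∀ z ∈ Metric.ball x0 ε, f z / a z = f x0 / a x0 := by
      intro z hz
      have h1 := Convex.norm_image_sub_le_of_norm_hasDerivWithin_le (f := fun w => f w / a w)
        (f' := fun w => (f' w * a w - f w * a' w) / a w ^ 2) (s := Metric.ball x0 ε) (C := 0)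
        (fun w hw => ((hf w (hball w hw).1).div (ha w (hball w hw).1) (hball w hw).2).hasDerivWithinAt)
        (fun w hw' => by rw [hw w (hball w hw').1, zero_div, norm_zero])
        (convex_ball x0 ε) (Metric.mem_ball_self hε) hz
      rw [zero_mul] at h1
      have h2 := norm_le_zero_iff.1 h1
      exact sub_eq_zero.1 h2
    have hzero : f =ᶠ[nhds x0] 0 := by
      refine Filter.eventuallyEq_of_mem (Metric.ball_mem_nhds x0 hε) fun z hz => ?_
      have h1 := hconst z hz
      rw [hfx0, zero_div, div_eq_zero_iff] at h1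
      rcases h1 with h1 | h1
      · exact h1
      · exact absurd h1 (hball z hz).2
    have h2 := hfa.eqOn_zero_of_preconnected_of_eventuallyEq_zero isPreconnected_Ioi hx0 hzero
    exact fun x hx => h2 hx
  · right
    refine nz_sub hN fun x hx hfx => ?_
    by_contra hax
    exact h ⟨x, hx, hfx, hax⟩

theorem ppow (y : ℕ → ℝ → ℝ) (r E : ℕ) (Q : ℝ → ℝ) (hQ : Pol y r E Q) (m : ℕ) :
    Pol y r (m * E) (fun x => Q x ^ m) := by
  induction m with
  | zero =>
    refine pcongr y r _ _ _ (fun x _ => ?_) (pconst y r (0 * E) 1)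
    rw [pow_zero]
  | succ m ih =>
    have h1 := pmul y r _ _ _ _ ih hQ
    rw [show (m + 1) * E = m * E + E by ring]
    refine pcongr y r _ _ _ (fun x _ => ?_) h1
    rw [pow_succ]

theorem inner (y : ℕ → ℝ → ℝ) (r : ℕ) (hc : Chn y (r + 1))
    (IH : ∀ (d : ℕ) (f : ℝ → ℝ), Pol y r d f → (∀ x, 0 < x → f x = 0) ∨ NZ f (Zb r d))
    (Q : ℝ → ℝ) (hQ : Pol y r (4 ^ (r + 1)) Q)
    (ht : (∀ x, 0 < x → 0 < y r x ∧ HasDerivAt (y r) (y r x * Q x) x) ∨
      (∀ x, 0 < x → HasDerivAt (y r) (Q x) x)) (k : ℕ) :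
    ∀ (e : ℕ) (a : ℕ → ℝ → ℝ) (f : ℝ → ℝ), (∀ j ≤ k, Pol y r e (a j)) →
      (∀ x, 0 < x → f x = ∑ j ∈ range (k + 1), a j x * y r x ^ j) →
      (∀ x, 0 < x → f x = 0) ∨ NZ f (Kb r k e) := by
  have hc' : Chn y r := chn_mono (Nat.le_succ r) hc
  induction k with
  | zero =>
    intro e a f ha hf
    have h1 : ∀ x, 0 < x → f x = a 0 x := by
      intro x hx
      rw [hf x hx]
      simp
    rcases IH e (a 0) (ha 0 le_rfl) with h2 | h2
    · left
      intro x hx
      rw [h1 x hx]
      exact h2 x hx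
    · right
      refine nz_mono (nz_sub h2 fun x hx h3 => ?_) (Zb_Kb r 0 e)
      rw [← h1 x hx]
      exact h3
  | succ k ihk =>
    intro e a f ha hf
    obtain ⟨E, hE⟩ : ∃ E, E = 4 ^ (r + 1) := ⟨_, rfl⟩
    -- derivatives of the coefficients
    have hch : ∀ j, ∃ b : ℝ → ℝ, j ≤ k + 1 → Pol y r (e + E) b ∧
        ∀ x, 0 < x → HasDerivAt (a j) (b x) x := by
      intro j
      by_cases hj : j ≤ k + 1
      · obtain ⟨b, hb⟩ := der y r e (a j) hc' (ha j hj)
        exact ⟨b, fun _ => by rw [hE]; exact hb⟩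
      · exact ⟨fun _ => 0, fun h => absurd h hj⟩
    choose b hb using hch
    have hfP : Pol y (r + 1) (max e (k + 1)) f := by
      have h1 := psum y (r + 1) (max e (k + 1)) (range (k + 1 + 1)) (fun j x => a j x * y r x ^ j)
        fun j hj => by
          rw [mem_range] at hj
          exact pterm y r _ j (by omega) _ (pmono y r _ _ _ (le_max_left _ _) (ha j (by omega)))
      exact pcongr y (r + 1) _ _ _ (fun x hx => (hf x hx).symm) h1
    have hfa : AnalyticOnNhd ℝ f (Set.Ioi 0) := panal y (r + 1) _ f hc hfP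
    -- degrees
    have hco : ∀ i j l m : ℕ, i ≤ k + 1 → j ≤ k + 1 → l ≤ k + 1 → m ≤ k + 1 → ∀ c : ℝ,
        Pol y r (2 * e + 2 * 4 ^ (r + 1))
          (fun x => b i x * a j x + c * (a l x * Q x * a j x) + (-1) * (a l x * b m x)) := by
      intro i j l m hi hj hl hm c
      rw [← hE]
      have e1 := pmul y r _ _ _ _ (hb i hi).1 (ha j hj)
      have e2 := pmul y r _ _ _ _ (pmul y r _ _ _ _ (ha l hl) hQ) (ha j hj)
      have e3 := pmul y r 0 _ _ _ (pconst y r 0 c) e2
      have e4 := pmul y r _ _ _ _ (ha l hl) (hb m hm).1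
      have e5 := pmul y r 0 _ _ _ (pconst y r 0 (-1)) e4
      rw [← hE] at e3
      refine padd y r _ _ _ (padd y r _ _ _ (pmono y r _ _ _ ?_ e1) (pmono y r _ _ _ ?_ e3))
        (pmono y r _ _ _ ?_ e5) <;> omega
    have hco0 : ∀ i j l m : ℕ, i ≤ k + 1 → j ≤ k + 1 → l ≤ k + 1 → m ≤ k + 1 → ∀ n ≤ k + 1, ∀ c : ℝ,
        Pol y r (2 * e + 2 * 4 ^ (r + 1))
          (fun x => b i x * a j x + c * (a n x * Q x * a j x) + (-1) * (a l x * b m x)) := by
      intro i j l m hi hj hl hm n hn c
      rw [← hE]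
      have e1 := pmul y r _ _ _ _ (hb i hi).1 (ha j hj)
      have e2 := pmul y r _ _ _ _ (pmul y r _ _ _ _ (ha n hn) hQ) (ha j hj)
      have e3 := pmul y r 0 _ _ _ (pconst y r 0 c) e2
      have e4 := pmul y r _ _ _ _ (ha l hl) (hb m hm).1
      have e5 := pmul y r 0 _ _ _ (pconst y r 0 (-1)) e4
      rw [← hE] at e3
      refine padd y r _ _ _ (padd y r _ _ _ (pmono y r _ _ _ ?_ e1) (pmono y r _ _ _ ?_ e3))
        (pmono y r _ _ _ ?_ e5) <;> omega
    rcases ht with hX | hP
    · -- exponential type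
      by_cases h0 : ∀ x, 0 < x → a 0 x = 0
      · have h1 := ihk e (fun j => a (j + 1)) (fun x => ∑ j ∈ range (k + 1), a (j + 1) x * y r x ^ j)
          (fun j hj => ha (j + 1) (by omega)) (fun x _ => rfl)
        have h2 : ∀ x, 0 < x → f x = y r x * ∑ j ∈ range (k + 1), a (j + 1) x * y r x ^ j := by
          intro x hx
          rw [hf x hx, sum_range_succ', h0 x hx, zero_mul, add_zero, mul_sum]
          refine sum_congr rfl fun j _ => ?_
          rw [pow_succ]
          ring
        rcases h1 with h1 | h1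
        · left
          intro x hx
          rw [h2 x hx]
          have := h1 x hx
          rw [this, mul_zero]
        · right
          refine nz_mono (nz_sub h1 fun x hx h3 => ?_) (Kb_k r k e)
          rw [h2 x hx, mul_eq_zero] at h3
          rcases h3 with h3 | h3
          · exact absurd h3 (hX x hx).1.ne'
          · exact h3
      · have hNa : NZ (a 0) (Zb r e) := by
          rcases IH e (a 0) (ha 0 (by omega)) with h1 | h1
          · exact absurd h1 h0
          · exact h1
        obtain ⟨f', hf'⟩ : ∃ f' : ℝ → ℝ, f' = fun x => ∑ j ∈ range (k + 1 + 1),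
            (b j x * y r x ^ j + a j x * (j * y r x ^ (j - 1) * (y r x * Q x))) := ⟨_, rfl⟩
        have hfd : ∀ x, 0 < x → HasDerivAt f (f' x) x := by
          intro x hx
          rw [hf']
          exact hd_sum y r (k + 1) f a b x _ hx hf (fun j hj => (hb j hj).2 x hx) (hX x hx).2
        have had : ∀ x, 0 < x → HasDerivAt (a 0) (b 0 x) x := fun x hx => (hb 0 (by omega)).2 x hx
        obtain ⟨c, hcd⟩ : ∃ c : ℕ → ℝ → ℝ, c = fun j x => b (j + 1) x * a 0 x +
            ((j : ℝ) + 1) * (a (j + 1) x * Q x * a 0 x) + (-1) * (a (j + 1) x * b 0 x) := ⟨_, rfl⟩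
        have hg : ∀ x, 0 < x → f' x * a 0 x - f x * b 0 x =
            y r x * ∑ j ∈ range (k + 1), c j x * y r x ^ j := by
          intro x hx
          rw [hf x hx, hf']
          show (∑ j ∈ range (k + 1 + 1),
            (b j x * y r x ^ j + a j x * (j * y r x ^ (j - 1) * (y r x * Q x)))) * a 0 x -
            (∑ j ∈ range (k + 1 + 1), a j x * y r x ^ j) * b 0 x = _
          rw [sum_mul, sum_mul, ← sum_sub_distrib, sum_range_succ', mul_sum]
          have h4 : (b 0 x * y r x ^ 0 + a 0 x * (((0 : ℕ) : ℝ) * y r x ^ (0 - 1) * (y r x * Q x))) * a 0 x -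
              a 0 x * y r x ^ 0 * b 0 x = 0 := by
            rw [Nat.cast_zero, pow_zero]
            ring
          rw [h4, add_zero]
          refine sum_congr rfl fun j _ => ?_
          rw [hcd, Nat.add_sub_cancel, pow_succ]
          push_cast
          ring
        have h1 := ihk (2 * e + 2 * 4 ^ (r + 1)) c (fun x => ∑ j ∈ range (k + 1), c j x * y r x ^ j)
          (fun j hj => by
            rw [hcd]
            exact hco (j + 1) 0 (j + 1) 0 (by omega) (by omega) (by omega) (by omega) _)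
          (fun x _ => rfl)
        rcases h1 with h1 | h1
        · have h2 := wronsk f (a 0) f' (b 0) _ hfa hfd had hNa (fun x hx => by
            rw [hg x hx]
            have := h1 x hx
            rw [this, mul_zero])
          rcases h2 with h2 | h2
          · exact Or.inl h2
          · exact Or.inr (nz_mono h2 (Zb_Kb r (k + 1) e))
        · right
          have h2 : NZ (fun x => f' x * a 0 x - f x * b 0 x) (Kb r k (2 * e + 2 * 4 ^ (r + 1))) := by
            refine nz_sub h1 fun x hx h3 => ?_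
            have h4 : f' x * a 0 x - f x * b 0 x = 0 := h3
            rw [hg x hx, mul_eq_zero] at h4
            rcases h4 with h4 | h4
            · exact absurd h4 (hX x hx).1.ne'
            · exact h4
          exact nz_mono (rol f (a 0) f' (b 0) _ _ hfd had hNa h2) (Kb_step r k e)
    · -- primitive type
      by_cases h0 : ∀ x, 0 < x → a (k + 1) x = 0
      · have h1 := ihk e a f (fun j hj => ha j (by omega)) (fun x hx => by
          rw [hf x hx, sum_range_succ, h0 x hx, zero_mul, add_zero])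
        rcases h1 with h1 | h1
        · exact Or.inl h1
        · exact Or.inr (nz_mono h1 (Kb_k r k e))
      · have hNa : NZ (a (k + 1)) (Zb r e) := by
          rcases IH e (a (k + 1)) (ha (k + 1) le_rfl) with h1 | h1
          · exact absurd h1 h0
          · exact h1
        obtain ⟨f', hf'⟩ : ∃ f' : ℝ → ℝ, f' = fun x => ∑ j ∈ range (k + 1 + 1),
            (b j x * y r x ^ j + a j x * (j * y r x ^ (j - 1) * Q x)) := ⟨_, rfl⟩
        have hfd : ∀ x, 0 < x → HasDerivAt f (f' x) x := by
          intro x hx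
          rw [hf']
          exact hd_sum y r (k + 1) f a b x _ hx hf (fun j hj => (hb j hj).2 x hx) (hP x hx)
        have had : ∀ x, 0 < x → HasDerivAt (a (k + 1)) (b (k + 1) x) x :=
          fun x hx => (hb (k + 1) le_rfl).2 x hx
        obtain ⟨c, hcd⟩ : ∃ c : ℕ → ℝ → ℝ, c = fun j x => b j x * a (k + 1) x +
            ((j : ℝ) + 1) * (a (j + 1) x * Q x * a (k + 1) x) + (-1) * (a j x * b (k + 1) x) :=
          ⟨_, rfl⟩
        have hg : ∀ x, 0 < x → f' x * a (k + 1) x - f x * b (k + 1) x =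
            ∑ j ∈ range (k + 1), c j x * y r x ^ j := by
          intro x hx
          rw [hf x hx, hf']
          show (∑ j ∈ range (k + 1 + 1),
            (b j x * y r x ^ j + a j x * (j * y r x ^ (j - 1) * Q x))) * a (k + 1) x -
            (∑ j ∈ range (k + 1 + 1), a j x * y r x ^ j) * b (k + 1) x = _
          rw [sum_add_distrib, add_mul]
          have h5 : ∑ j ∈ range (k + 1 + 1), a j x * (j * y r x ^ (j - 1) * Q x) =
              ∑ j ∈ range (k + 1), a (j + 1) x * (((j : ℝ) + 1) * y r x ^ j * Q x) := by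
            rw [sum_range_succ']
            rw [Nat.cast_zero, zero_mul, zero_mul, mul_zero, add_zero]
            refine sum_congr rfl fun j _ => ?_
            rw [Nat.add_sub_cancel]
            push_cast
            ring
          rw [h5, sum_range_succ, sum_range_succ (fun j => a j x * y r x ^ j)]
          have h6 : ∀ A B C D G : ℝ, (A + b (k + 1) x * G) * a (k + 1) x + B * a (k + 1) x -
              (C + a (k + 1) x * G) * b (k + 1) x = A * a (k + 1) x + B * a (k + 1) x -
                C * b (k + 1) x := by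
            intro A B C D G
            ring
          rw [h6 _ _ _ 0 _, sum_mul, sum_mul, sum_mul, ← sum_add_distrib, ← sum_sub_distrib]
          refine sum_congr rfl fun j _ => ?_
          rw [hcd]
          ring
        have h1 := ihk (2 * e + 2 * 4 ^ (r + 1)) c (fun x => ∑ j ∈ range (k + 1), c j x * y r x ^ j)
          (fun j hj => by
            rw [hcd]
            exact hco0 j (k + 1) j (k + 1) (by omega) (by omega) (by omega) (by omega) (j + 1)
              (by omega) _)
          (fun x _ => rfl)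
        rcases h1 with h1 | h1
        · have h2 := wronsk f (a (k + 1)) f' (b (k + 1)) _ hfa hfd had hNa (fun x hx => by
            rw [hg x hx]
            exact h1 x hx)
          rcases h2 with h2 | h2
          · exact Or.inl h2
          · exact Or.inr (nz_mono h2 (Zb_Kb r (k + 1) e))
        · right
          have h2 : NZ (fun x => f' x * a (k + 1) x - f x * b (k + 1) x)
              (Kb r k (2 * e + 2 * 4 ^ (r + 1))) := by
            refine nz_sub h1 fun x hx h3 => ?_
            have h4 : f' x * a (k + 1) x - f x * b (k + 1) x = 0 := h3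
            rw [hg x hx] at h4
            exact h4
          exact nz_mono (rol f (a (k + 1)) f' (b (k + 1)) _ _ hfd had hNa h2) (Kb_step r k e)

theorem zb : ZBStm := by
  intro y r
  induction r with
  | zero =>
    intro d f _ hf
    obtain ⟨p, hp, h1⟩ := hf
    by_cases h0 : p = 0
    · left
      intro x hx
      rw [h1 x hx, h0, Polynomial.eval_zero]
    · right
      intro S hS
      have h2 : S ⊆ p.roots.toFinset := by
        intro x hx
        rw [Multiset.mem_toFinset, Polynomial.mem_roots h0, Polynomial.IsRoot.def, ← h1 x (hS x hx).1]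
        exact (hS x hx).2
      exact (card_le_card h2).trans ((Multiset.toFinset_card_le _).trans ((Polynomial.card_roots' p).trans hp))
  | succ r ihr =>
    intro d f hc hf
    have hc' : Chn y r := chn_mono (Nat.le_succ r) hc
    have IH : ∀ (d : ℕ) (f : ℝ → ℝ), Pol y r d f → (∀ x, 0 < x → f x = 0) ∨ NZ f (Zb r d) :=
      fun d f h => ihr d f hc' h
    obtain ⟨a, ha, h1⟩ := hf
    obtain ⟨_, Q, hQ, htype⟩ := hc r (Nat.lt_succ_self r)
    have hKb : Kb r d d ≤ Zb (r + 1) d := by
      show (2 * d + 1) * (Zb r (2 ^ d * (d + 2 * 4 ^ (r + 1))) + 1) ≤ (2 * d + 3) * (Zb r (Mb r d) + 1)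
      exact Nat.mul_le_mul (by omega) (Nat.succ_le_succ (Zb_mono r (Nat.le_add_right _ _)))
    rcases htype with hE | hP | hI
    · rcases inner y r hc IH Q hQ (Or.inl hE) d d a f ha h1 with h2 | h2
      · exact Or.inl h2
      · exact Or.inr (nz_mono h2 hKb)
    · rcases inner y r hc IH Q hQ (Or.inr hP) d d a f ha h1 with h2 | h2
      · exact Or.inl h2
      · exact Or.inr (nz_mono h2 hKb)
    · -- inverse type
      have hF : Pol y r (d + d * 4 ^ (r + 1)) (fun x => ∑ j ∈ range (d + 1), a j x * Q x ^ (d - j)) := by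
        refine psum y r _ (range (d + 1)) (fun j x => a j x * Q x ^ (d - j)) fun j hj => ?_
        rw [mem_range] at hj
        have h3 := pmul y r _ _ _ _ (ha j (by omega)) (ppow y r _ Q hQ (d - j))
        refine pmono y r _ _ _ ?_ h3
        exact Nat.add_le_add_left (Nat.mul_le_mul_right _ (Nat.sub_le d j)) d
      have hfQ : ∀ x, 0 < x → f x * Q x ^ d = ∑ j ∈ range (d + 1), a j x * Q x ^ (d - j) := by
        intro x hx
        rw [h1 x hx, sum_mul]
        refine sum_congr rfl fun j hj => ?_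
        rw [mem_range] at hj
        have h3 : Q x ^ d = Q x ^ j * Q x ^ (d - j) := by
          rw [← pow_add]
          congr 1
          omega
        have h4 : y r x ^ j * Q x ^ j = 1 := by
          rw [← mul_pow, (hI x hx).2, one_pow]
        rw [h3]
        calc a j x * y r x ^ j * (Q x ^ j * Q x ^ (d - j)) =
            a j x * (y r x ^ j * Q x ^ j) * Q x ^ (d - j) := by ring
          _ = a j x * Q x ^ (d - j) := by rw [h4, mul_one]
      rcases IH _ _ hF with h3 | h3
      · left
        intro x hx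
        have h4 := hfQ x hx
        have h5 : ∑ j ∈ range (d + 1), a j x * Q x ^ (d - j) = 0 := h3 x hx
        rw [h5, mul_eq_zero] at h4
        rcases h4 with h4 | h4
        · exact h4
        · exact absurd h4 (pow_ne_zero _ (hI x hx).1.ne')
      · right
        refine nz_mono (nz_sub h3 fun x hx h4 => ?_) ?_
        · show ∑ j ∈ range (d + 1), a j x * Q x ^ (d - j) = 0
          rw [← hfQ x hx, h4, zero_mul]
        · show Zb r (d + d * 4 ^ (r + 1)) ≤ (2 * d + 3) * (Zb r (Mb r d) + 1)
          have h5 : d + d * 4 ^ (r + 1) ≤ Mb r d := by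
            unfold Mb
            exact Nat.add_le_add_right (le_pm _ _ _ Nat.one_le_two_pow) _
          have h6 := Zb_mono r h5
          nlinarith

theorem zb' : ALGStm → DERStm → ROLStm → ZBStm := fun _ _ _ => zb

end Pool.Agent.Q208.LV
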