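import Pool.Agent.Q205.LV.Stm

/-! Project LV, job ALG: closure properties of `Pol`. -/

set_option autoImplicit false
set_option linter.all false

namespace Pool.Agent.Q208.LV

open Pool.Agent.Q205.LV Finset

theorem pcongr (y : ℕ → ℝ → ℝ) (r d : ℕ) (f g : ℝ → ℝ) (h : ∀ x, 0 < x → f x = g x)
    (hf : Pol y r d f) : Pol y r d g := by
  cases r with
  | zero =>
    obtain ⟨p, hp, h2⟩ := hf
    exact ⟨p, hp, fun x hx => by rw [← h x hx, h2 x hx]⟩
  | succ r =>
    obtain ⟨a, ha, h2⟩ := hf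
    exact ⟨a, ha, fun x hx => by rw [← h x hx, h2 x hx]⟩

theorem pconst (y : ℕ → ℝ → ℝ) (r d : ℕ) (c : ℝ) : Pol y r d (fun _ => c) := by
  induction r generalizing c with
  | zero => exact ⟨Polynomial.C c, by simp, fun x _ => by simp⟩
  | succ r ih =>
    refine ⟨fun j => if j = 0 then fun _ => c else fun _ => 0, fun j _ => ?_, fun x _ => ?_⟩
    · show Pol y r d (if j = 0 then fun _ => c else fun _ => 0)
      split_ifs
      · exact ih c
      · exact ih 0
    · rw [sum_eq_single 0]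
      · simp
      · intro j _ hj
        simp [hj]
      · intro h
        exact absurd (mem_range.2 (by omega)) h

theorem pterm (y : ℕ → ℝ → ℝ) (r D k : ℕ) (hk : k ≤ D) (a : ℝ → ℝ) (ha : Pol y r D a) :
    Pol y (r + 1) D (fun x => a x * y r x ^ k) := by
  refine ⟨fun j => if j = k then a else fun _ => 0, fun j _ => ?_, fun x _ => ?_⟩
  · show Pol y r D (if j = k then a else fun _ => 0)
    split_ifs
    · exact ha
    · exact pconst y r D 0
  · rw [sum_eq_single k]
    · simp
    · intro j _ hj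
      simp [hj]
    · intro h
      exact absurd (mem_range.2 (by omega)) h

theorem padd (y : ℕ → ℝ → ℝ) (r d : ℕ) (f g : ℝ → ℝ) (hf : Pol y r d f) (hg : Pol y r d g) :
    Pol y r d (fun x => f x + g x) := by
  induction r generalizing f g with
  | zero =>
    obtain ⟨p, hp, h1⟩ := hf
    obtain ⟨q, hq, h2⟩ := hg
    refine ⟨p + q, (Polynomial.natDegree_add_le p q).trans (max_le hp hq), fun x hx => ?_⟩
    show f x + g x = _
    rw [Polynomial.eval_add, h1 x hx, h2 x hx]
  | succ r ih =>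
    obtain ⟨a, ha, h1⟩ := hf
    obtain ⟨b, hb, h2⟩ := hg
    refine ⟨fun j x => a j x + b j x, fun j hj => ih _ _ (ha j hj) (hb j hj), fun x hx => ?_⟩
    show f x + g x = _
    rw [h1 x hx, h2 x hx, ← sum_add_distrib]
    exact sum_congr rfl fun j _ => (add_mul _ _ _).symm

theorem psum {ι : Type*} (y : ℕ → ℝ → ℝ) (r d : ℕ) (s : Finset ι) (F : ι → ℝ → ℝ)
    (h : ∀ i ∈ s, Pol y r d (F i)) : Pol y r d (fun x => ∑ i ∈ s, F i x) := by
  classical
  induction s using Finset.induction_on with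
  | empty =>
    simp only [sum_empty]
    exact pconst y r d 0
  | insert i s hi ih =>
    have h1 := padd y r d _ _ (h i (mem_insert_self i s)) (ih fun j hj => h j (mem_insert_of_mem hj))
    refine pcongr y r d _ _ (fun x _ => ?_) h1
    rw [sum_insert hi]

theorem pmono (y : ℕ → ℝ → ℝ) (r d e : ℕ) (f : ℝ → ℝ) (hde : d ≤ e) (hf : Pol y r d f) :
    Pol y r e f := by
  induction r generalizing f with
  | zero =>
    obtain ⟨p, hp, h1⟩ := hf
    exact ⟨p, hp.trans hde, h1⟩
  | succ r ih =>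
    obtain ⟨a, ha, h1⟩ := hf
    have h2 := psum y (r + 1) e (range (d + 1)) (fun j x => a j x * y r x ^ j) (fun j hj => by
      rw [mem_range] at hj
      exact pterm y r e j (by omega) (a j) (ih _ (ha j (by omega))))
    exact pcongr y (r + 1) e _ _ (fun x hx => (h1 x hx).symm) h2

theorem pup1 (y : ℕ → ℝ → ℝ) (r d : ℕ) (f : ℝ → ℝ) (hf : Pol y r d f) : Pol y (r + 1) d f := by
  have h1 := pterm y r d 0 (Nat.zero_le d) f hf
  refine pcongr y (r + 1) d _ _ (fun x _ => ?_) h1
  rw [pow_zero, mul_one]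

theorem pup (y : ℕ → ℝ → ℝ) (r s d : ℕ) (f : ℝ → ℝ) (hrs : r ≤ s) (hf : Pol y r d f) :
    Pol y s d f := by
  induction s, hrs using Nat.le_induction with
  | base => exact hf
  | succ s _ ih => exact pup1 y s d f ih

theorem pid (y : ℕ → ℝ → ℝ) (r : ℕ) : Pol y r 1 (fun x => x) := by
  refine pup y 0 r 1 _ (Nat.zero_le r) ⟨Polynomial.X, Polynomial.natDegree_X_le, fun x _ => ?_⟩
  rw [Polynomial.eval_X]

theorem py (y : ℕ → ℝ → ℝ) (r : ℕ) : Pol y (r + 1) 1 (y r) := by
  have h1 := pterm y r 1 1 le_rfl _ (pconst y r 1 1)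
  refine pcongr y (r + 1) 1 _ _ (fun x _ => ?_) h1
  rw [pow_one, one_mul]

theorem pmul (y : ℕ → ℝ → ℝ) (r d e : ℕ) (f g : ℝ → ℝ) (hf : Pol y r d f) (hg : Pol y r e g) :
    Pol y r (d + e) (fun x => f x * g x) := by
  induction r generalizing f g with
  | zero =>
    obtain ⟨p, hp, h1⟩ := hf
    obtain ⟨q, hq, h2⟩ := hg
    refine ⟨p * q, Polynomial.natDegree_mul_le.trans (add_le_add hp hq), fun x hx => ?_⟩
    show f x * g x = _
    rw [Polynomial.eval_mul, h1 x hx, h2 x hx]
  | succ r ih =>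
    obtain ⟨a, ha, h1⟩ := hf
    obtain ⟨b, hb, h2⟩ := hg
    have h3 := psum y (r + 1) (d + e) (range (d + 1) ×ˢ range (e + 1))
      (fun p x => (a p.1 x * b p.2 x) * y r x ^ (p.1 + p.2)) (fun p hp => by
        rw [mem_product, mem_range, mem_range] at hp
        exact pterm y r (d + e) (p.1 + p.2) (by omega) _ (ih _ _ (ha p.1 (by omega))
          (hb p.2 (by omega))))
    refine pcongr y (r + 1) (d + e) _ _ (fun x hx => ?_) h3
    rw [h1 x hx, h2 x hx, sum_mul_sum, sum_product]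
    refine sum_congr rfl fun i _ => sum_congr rfl fun j _ => ?_
    show (a i x * b j x) * y r x ^ (i + j) = _
    rw [pow_add]
    ring

theorem chn_mono {y : ℕ → ℝ → ℝ} {r s : ℕ} (h : r ≤ s) (hc : Chn y s) : Chn y r :=
  fun i hi => hc i (by omega)

theorem panal (y : ℕ → ℝ → ℝ) (r d : ℕ) (f : ℝ → ℝ) (hc : Chn y r) (hf : Pol y r d f) :
    AnalyticOnNhd ℝ f (Set.Ioi 0) := by
  induction r generalizing f with
  | zero =>
    obtain ⟨p, hp, h1⟩ := hf
    have h2 : AnalyticOnNhd ℝ (fun x => p.eval x) (Set.Ioi 0) := by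
      intro x _
      have h3 : AnalyticAt ℝ (fun x : ℝ => Polynomial.aeval x p) x := analyticAt_id.aeval_polynomial p
      simpa [Polynomial.coe_aeval_eq_eval] using h3
    exact h2.congr isOpen_Ioi fun x hx => (h1 x hx).symm
  | succ r ih =>
    obtain ⟨a, ha, h1⟩ := hf
    have h2 : AnalyticOnNhd ℝ (fun x => ∑ j ∈ range (d + 1), a j x * y r x ^ j) (Set.Ioi 0) := by
      refine Finset.analyticOnNhd_fun_sum _ fun j hj => ?_
      rw [mem_range] at hj
      exact (ih (a j) (chn_mono (Nat.le_succ r) hc) (ha j (by omega))).mul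
        ((hc r (Nat.lt_succ_self r)).1.pow j)
    exact h2.congr isOpen_Ioi fun x hx => (h1 x hx).symm

theorem alg : ALGStm := fun y => ⟨fun r d e f h1 h2 => pmono y r d e f h1 h2,
  fun r s d f h1 h2 => pup y r s d f h1 h2, fun r d f g h1 h2 => pcongr y r d f g h1 h2,
  fun r d c => pconst y r d c, fun r => pid y r, fun r => py y r,
  fun r d f g h1 h2 => padd y r d f g h1 h2, fun r d e f g h1 h2 => pmul y r d e f g h1 h2,
  fun r d f h1 h2 => panal y r d f h1 h2⟩

end Pool.Agent.Q208.LV
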