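import Pool.Agent.Q208.LV.Alg

/-! Project LV, job DER: derivatives of polynomials in a chain. -/

set_option autoImplicit false
set_option linter.all false

namespace Pool.Agent.Q208.LV

open Pool.Agent.Q205.LV Finset

/-- the growth of the degree -/
def Er : ℕ → ℕ
  | 0 => 0
  | r + 1 => Er r + 4 ^ (r + 1) + 1

theorem Er_le (r : ℕ) : Er r ≤ 4 ^ (r + 1) := by
  induction r with
  | zero => exact Nat.zero_le _
  | succ r ih =>
    show Er r + 4 ^ (r + 1) + 1 ≤ 4 ^ (r + 1 + 1)
    have h1 : 1 ≤ 4 ^ (r + 1) := Nat.one_le_pow _ _ (by norm_num)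
    have h2 : 4 ^ (r + 1 + 1) = 4 * 4 ^ (r + 1) := by rw [pow_succ, mul_comm]
    omega

theorem hd_congr {f g : ℝ → ℝ} {f' x : ℝ} (hx : 0 < x) (h : ∀ z, 0 < z → f z = g z)
    (hg : HasDerivAt g f' x) : HasDerivAt f f' x :=
  hg.congr_of_eventuallyEq (Filter.eventuallyEq_of_mem (isOpen_Ioi.mem_nhds hx) fun z hz => h z hz)

/-- the derivative of a sum, the derivative of `y r` being given -/
theorem hd_sum (y : ℕ → ℝ → ℝ) (r d : ℕ) (f : ℝ → ℝ) (a b : ℕ → ℝ → ℝ) (x w : ℝ) (hx : 0 < x)
    (hf : ∀ z, 0 < z → f z = ∑ j ∈ range (d + 1), a j z * y r z ^ j)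
    (hb : ∀ j ≤ d, HasDerivAt (a j) (b j x) x) (hy : HasDerivAt (y r) w x) :
    HasDerivAt f (∑ j ∈ range (d + 1), (b j x * y r x ^ j + a j x * (j * y r x ^ (j - 1) * w))) x := by
  refine hd_congr hx hf (HasDerivAt.fun_sum fun j hj => ?_)
  rw [mem_range] at hj
  exact (hb j (by omega)).mul (hy.fun_pow j)

theorem der_strong (y : ℕ → ℝ → ℝ) (r d : ℕ) (f : ℝ → ℝ) (hc : Chn y r) (hf : Pol y r d f) :
    ∃ f' : ℝ → ℝ, Pol y r (d + Er r) f' ∧ ∀ x, 0 < x → HasDerivAt f (f' x) x := by
  induction r generalizing d f with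
  | zero =>
    obtain ⟨p, hp, h1⟩ := hf
    refine ⟨fun x => p.derivative.eval x, ⟨p.derivative, ?_, fun x _ => rfl⟩, fun x hx => ?_⟩
    · exact (Polynomial.natDegree_derivative_le p).trans ((Nat.sub_le _ _).trans hp)
    · exact hd_congr hx h1 (p.hasDerivAt x)
  | succ r ih =>
    obtain ⟨a, ha, h1⟩ := hf
    have hc' : Chn y r := chn_mono (Nat.le_succ r) hc
    have hch : ∀ j, ∃ b : ℝ → ℝ, j ≤ d → Pol y r (d + Er r) b ∧ ∀ x, 0 < x → HasDerivAt (a j) (b x) x := by
      intro j
      by_cases hj : j ≤ d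
      · obtain ⟨b, hb⟩ := ih d (a j) hc' (ha j hj)
        exact ⟨b, fun _ => hb⟩
      · exact ⟨fun _ => 0, fun h => absurd h hj⟩
    choose b hb using hch
    obtain ⟨D, hD⟩ : ∃ D, D = d + Er (r + 1) := ⟨_, rfl⟩
    have hDE : Er (r + 1) = Er r + 4 ^ (r + 1) + 1 := rfl
    have h4p : 1 ≤ 4 ^ r := Nat.one_le_pow _ _ (by norm_num)
    rw [← hD]
    have hbp : ∀ j ≤ d, Pol y r D (b j) := fun j hj => pmono y r _ _ _ (by omega) (hb j hj).1
    have hsb : Pol y (r + 1) D (fun x => ∑ j ∈ range (d + 1), b j x * y r x ^ j) :=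
      psum y (r + 1) D (range (d + 1)) (fun j x => b j x * y r x ^ j) fun j hj => by
        rw [mem_range] at hj
        exact pterm y r D j (by omega) _ (hbp j (by omega))
    obtain ⟨_, Q, hQ, htype⟩ := hc r (Nat.lt_succ_self r)
    have haQ : ∀ j ≤ d, Pol y r D (fun x => (j : ℝ) * (a j x * Q x)) := by
      intro j hj
      have h2 := pmul y r d (4 ^ (r + 1)) _ _ (ha j hj) hQ
      have h3 := pmul y r 0 (d + 4 ^ (r + 1)) _ _ (pconst y r 0 (j : ℝ)) h2
      exact pmono y r _ _ _ (by omega) h3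
    rcases htype with hE | hP | hI
    · -- exponential type
      refine ⟨fun x => (∑ j ∈ range (d + 1), b j x * y r x ^ j) +
        ∑ j ∈ range (d + 1), ((j : ℝ) * (a j x * Q x)) * y r x ^ j, ?_, fun x hx => ?_⟩
      · refine padd y (r + 1) D _ _ hsb ?_
        exact psum y (r + 1) D (range (d + 1)) (fun j x => ((j : ℝ) * (a j x * Q x)) * y r x ^ j)
          fun j hj => by
            rw [mem_range] at hj
            exact pterm y r D j (by omega) _ (haQ j (by omega))
      · have h2 := hd_sum y r d f a b x (y r x * Q x) hx h1 (fun j hj => (hb j hj).2 x hx) (hE x hx).2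
        refine h2.congr_deriv ?_
        show _ = (∑ j ∈ range (d + 1), b j x * y r x ^ j) +
          ∑ j ∈ range (d + 1), ((j : ℝ) * (a j x * Q x)) * y r x ^ j
        rw [sum_add_distrib]
        congr 1
        refine sum_congr rfl fun j _ => ?_
        rcases j with _ | j
        · simp
        · rw [Nat.add_sub_cancel, pow_succ]
          ring
    · -- primitive type
      refine ⟨fun x => (∑ j ∈ range (d + 1), b j x * y r x ^ j) +
        ∑ j ∈ range (d + 1), ((j : ℝ) * (a j x * Q x)) * y r x ^ (j - 1), ?_, fun x hx => ?_⟩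
      · refine padd y (r + 1) D _ _ hsb ?_
        exact psum y (r + 1) D (range (d + 1)) (fun j x => ((j : ℝ) * (a j x * Q x)) * y r x ^ (j - 1))
          fun j hj => by
            rw [mem_range] at hj
            exact pterm y r D (j - 1) (by omega) _ (haQ j (by omega))
      · have h2 := hd_sum y r d f a b x (Q x) hx h1 (fun j hj => (hb j hj).2 x hx) (hP x hx)
        refine h2.congr_deriv ?_
        show _ = (∑ j ∈ range (d + 1), b j x * y r x ^ j) +
          ∑ j ∈ range (d + 1), ((j : ℝ) * (a j x * Q x)) * y r x ^ (j - 1)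
        rw [sum_add_distrib]
        congr 1
        refine sum_congr rfl fun j _ => ?_
        ring
    · -- inverse type
      obtain ⟨Q', hQ', hQd⟩ := ih (4 ^ (r + 1)) Q hc' hQ
      have haQ' : ∀ j ≤ d, Pol y r D (fun x => (-(j : ℝ)) * (a j x * Q' x)) := by
        intro j hj
        have h2 := pmul y r d (4 ^ (r + 1) + Er r) _ _ (ha j hj) hQ'
        have h3 := pmul y r 0 _ _ _ (pconst y r 0 (-(j : ℝ))) h2
        exact pmono y r _ _ _ (by omega) h3
      refine ⟨fun x => (∑ j ∈ range (d + 1), b j x * y r x ^ j) +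
        ∑ j ∈ range (d + 1), ((-(j : ℝ)) * (a j x * Q' x)) * y r x ^ (j + 1), ?_, fun x hx => ?_⟩
      · refine padd y (r + 1) D _ _ hsb ?_
        exact psum y (r + 1) D (range (d + 1))
          (fun j x => ((-(j : ℝ)) * (a j x * Q' x)) * y r x ^ (j + 1))
          fun j hj => by
            rw [mem_range] at hj
            exact pterm y r D (j + 1) (by omega) _ (haQ' j (by omega))
      · have hyd : HasDerivAt (y r) (-(Q' x) * y r x ^ 2) x := by
          have h3 : ∀ z, 0 < z → y r z = 1 / Q z := by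
            intro z hz
            obtain ⟨e1, e2⟩ := hI z hz
            rw [eq_div_iff e1.ne']
            exact e2
          have h4 : HasDerivAt (fun z => 1 / Q z) ((0 * Q x - 1 * Q' x) / Q x ^ 2) x :=
            (hasDerivAt_const x (1 : ℝ)).div (hQd x hx) (hI x hx).1.ne'
          refine (hd_congr hx h3 h4).congr_deriv ?_
          rw [h3 x hx, one_div, inv_pow]
          rw [zero_mul, one_mul, zero_sub, div_eq_mul_inv]
        have h2 := hd_sum y r d f a b x _ hx h1 (fun j hj => (hb j hj).2 x hx) hyd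
        refine h2.congr_deriv ?_
        show _ = (∑ j ∈ range (d + 1), b j x * y r x ^ j) +
          ∑ j ∈ range (d + 1), ((-(j : ℝ)) * (a j x * Q' x)) * y r x ^ (j + 1)
        rw [sum_add_distrib]
        congr 1
        refine sum_congr rfl fun j _ => ?_
        rcases j with _ | j
        · simp
        · rw [Nat.add_sub_cancel]
          ring

theorem der : DERStm := by
  intro y r d f hc hf
  obtain ⟨f', h1, h2⟩ := der_strong y r d f hc hf
  exact ⟨f', pmono y r _ _ _ (Nat.add_le_add_left (Er_le r) d) h1, h2⟩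

end Pool.Agent.Q208.LV
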